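import Mathlib
import Pool.Agent.StepIso.Main

set_option autoImplicit false

namespace Pool.Agent.Results.MP_68c038_an.StepIsometryContinuous

open Pool.Agent.StepIso

universe u

/-- Every step-isometry of a (real or complex) Banach space is continuous. -/
theorem result : ∀ (𝕜 : Type) [RCLike 𝕜] (X : Type u) [NormedAddCommGroup X] [NormedSpace 𝕜 X]
    [CompleteSpace X] (T : X → X), Function.Bijective T →
    (∀ x y : X, ⌊‖x - y‖⌋ = ⌊‖T x - T y‖⌋) → Continuous T := by
  intro 𝕜 _ X _ _ _ T hT h
  letI : NormedSpace ℝ X := NormedSpace.restrictScalars ℝ 𝕜 X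
  exact cont_real (Equiv.ofBijective T hT) h

end Pool.Agent.Results.MP_68c038_an.StepIsometryContinuous
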